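import Pool.Agent.H63.WS.Fin
import Pool.Agent.H63.WS.Reg2
import Pool.Agent.H63.WS.Two
import Pool.Agent.H63.WS.Rel
import Pool.Agent.H337.WS.Sums
import Pool.Agent.H596.WS.Conv
import Pool.Agent.H337.WS.Fej
import Pool.Agent.H350.WS.VAAL
import Pool.Agent.H34.WS.STEP
import Pool.Agent.H63.WS.P.Combo
import Pool.Agent.H225.WS.ABS
import Pool.Agent.H189.WS.Reg

/-!
# Approximate joint Sato-Tate laws for three, four and more newforms of different weights

Let `f_i`, `i ∈ ι`, be newforms without complex multiplication over a totally real field `K` (for instance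
`K = ℚ`), no two of them related by a twist, of even weights, and `V` the direct sum of the suitable Tate
twists of the families of Galois representations of the `f_i`: a family of odd weight with the Sato-Tate
group `SU(2)^ι` (with rational coefficients if the `f_i` have them, for instance for the newforms of level
one and weights 12, 16, 18, 20, 22, 26).  The Sato-Tate law for `V` says that the tuples of the angles
`θ_i(v) ∈ [0, π]` are distributed by the product of the Sato-Tate measures.  For two newforms this is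
known, for three or more newforms it is open, because nothing is known about the `L`-function of
`⊗ Sym^{a_i} f_i` in general.

Suppose that `a_i = c_i + d_i` and that `⊗ Sym^{c_i} f_i` and `⊗ Sym^{d_i} f_i` are both *regular* (their
Hodge numbers are pairwise different).  Then both are potentially automorphic over one totally real field
(Barnet-Lamb, Gee, Geraghty, Taylor), and by Brauer induction their Rankin-Selberg `L`-function has no
zeros and poles on `Re s = 1`, except for the pole at `s = 1` if `c = d`.  This is all we use (`Newforms`).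
It gives the averages of the characters `∏ U_{a_i}(cos θ_i)` for all these `a`.  If the weights of the
`f_i` are different, these are all `a ≠ 0` except for those with several large entries, and a method with
extremal trigonometric polynomials (Vaaler) gives the joint Sato-Tate law up to a small error; the error
tends to zero if the weights become independent.

* (1) three newforms: with `w_i = k_i - 1`, `P_ij ≤ w_j / gcd(w_i, w_j)` (for all embeddings of `K`) and
  `A_i ≤ P_ij + P_il - 1` the discrepancy is at most `128 / (A_0 A_1 A_2)`;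
* (2) four newforms, `A_i ≤ w_j / gcd(w_i, w_j)` for all `j ≠ i`: error of order `A^{-3}`;
* (3) any number `n` of newforms for which the sums `∑ j_i w_i`, `0 ≤ j_i ≤ R`, are pairwise different:
  discrepancy at most `2 n² (4/(R+1))² (1 + 8/(R+1))^n`;
* (4) any three of the weights 12, 16, 18, 20, 22, 26: each of the eight patterns of signs of the three
  coefficients has the density `1/8` up to `0.0019`; for the weights 12, 16, 18 (`τ(p)`, `τ_16(p)`,
  `τ_18(p)`) up to `0.0007`;
* (5) the weights 12, 16, 18, 20: each of the sixteen patterns of signs has the density `1/16` up to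
  `0.0351`;
* (6) three newforms `f_0, f_1, f_2` with no condition on the weights of `f_0` and `f_1`, for instance two
  elliptic curves, and `A gcd(w_i, w_2) ≤ w_2` for `i = 0, 1`: the discrepancy is at most `32 / A²` and
  tends to zero if the weight of `f_2` tends to infinity; for two elliptic curves `E`, `E'` and a newform
  of weight `k` it is at most `32 / (k - 1)²`; each pattern of signs of `a_p(E)`, `a_p(E')`, `τ(p)` has the
  density `1/8` up to `0.0547`;
* (7) relative errors, for any number `n` of newforms for which the sums `∑ j_i w_i`, `0 ≤ j_i ≤ R`, are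
  pairwise different: the density of a box with the Sato-Tate measures `m_i` of its sides is at least
  `∏ m_i (1 - 2 ∑ ε_i / m_i)` and at most `∏ (m_i + 2 ε_i)`, `ε_i ≤ 4 / (2 R + 1)`, so every box has a
  positive lower density if `R > 4 ∑ 1 / m_i`; each of the `2^n` patterns of signs has the density `2^{-n}`
  up to factors `1 - 4 n / (R + 1)` and `(1 + 4 / (R + 1))^n`.
-/

set_option autoImplicit false
set_option linter.unusedSectionVars false

namespace Pool.Agent.Results.MP_4c4ce6_nt.DifferentWeights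

open NumberField IsDedekindDomain Filter Topology Finset Pool.Agent.H63.WS

/-- The proportion of the primes with angles in the box `∏ I_i` is `m`, up to the error `δ`: for all
`η > 0` it differs from `m` by at most `δ + η` among the primes of norm at most `N`, for all large `N`. -/
def Within {K : Type} [Field K] [NumberField K] {ι : Type}
    (θ : ι → HeightOneSpectrum (𝓞 K) → ℝ) (I : ι → Set ℝ) (m δ : ℝ) : Prop :=
  ∀ η : ℝ, 0 < η → ∀ᶠ N : ℕ in atTop, |proportion {v | ∀ i, θ i v ∈ I i} N - m| ≤ δ + η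

theorem step : S_STEP :=
  Pool.Agent.H34.WS.STEP.t_step Pool.Agent.H337.WS.t_fej
    (Pool.Agent.H350.WS.t_vaal Pool.Agent.H337.WS.t_sums Pool.Agent.H596.WS.t_conv
      Pool.Agent.H337.WS.t_fej)

theorem abs' : S_ABS := Pool.Agent.H225.WS.t_abs Pool.Agent.H63.WS.PCombo.t_combo

section

variable {K : Type} [Field K] [NumberField K] {ι E : Type} [Fintype ι] [DecidableEq ι]
  {θ : ι → HeightOneSpectrum (𝓞 K) → ℝ} {w : ι → E → ℕ}

theorem general (h : Newforms θ w) {A : ι → ℕ} {k : ℕ}
    (hA : ∀ i, 2 ≤ A i) (hk : 2 ≤ k) (hs : Sums w A k) {α β : ι → ℝ} {I : ι → Set ℝ}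
    (hI : ∀ i, IsInterval (α i) (β i) (I i)) :
    Within θ I (∏ i, st (α i) (β i)) (bound k fun i => endErr (A i) (α i) + endErr (A i) (β i)) :=
  fun _ hη => main step abs' h hA hk hs hI hη

theorem sgn_box (hθ : ∀ i v, θ i v ∈ Set.Icc 0 Real.pi) {σ : ι → ℝ} (hσ : ∀ i, σ i = 1 ∨ σ i = -1) :
    {v | ∀ i, 0 < σ i * Real.cos (θ i v)} = {v | ∀ i, θ i v ∈ sgnSet (σ i)} := by
  ext v
  exact forall_congr' fun i => mem_sgn (hσ i) (hθ i v)

/-- sign patterns -/
theorem signs (h : Newforms θ w) {A : ι → ℕ} {k : ℕ} (hA : ∀ i, 2 ≤ A i) (hk : 2 ≤ k)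
    (hs : Sums w A k) {σ : ι → ℝ} (hσ : ∀ i, σ i = 1 ∨ σ i = -1) {η : ℝ} (hη : 0 < η) :
    ∀ᶠ N : ℕ in atTop, |proportion {v | ∀ i, 0 < σ i * Real.cos (θ i v)} N -
      (1 / 2) ^ Fintype.card ι| ≤ bound k (fun i => 1 / (A i : ℝ) * (2 - 2 / A i)) + η := by
  have h1 := general h hA hk hs (fun i => isInterval_sgn (σ i)) η hη
  simp only [st_sgn, endErr_sgn, Finset.prod_const, Finset.card_univ] at h1
  rw [sgn_box h.angle hσ]
  exact h1

end

/-- the third form has a large weight -/
theorem third {K : Type} [Field K] [NumberField K] {E : Type}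
    {θ : Fin 3 → HeightOneSpectrum (𝓞 K) → ℝ} {w : Fin 3 → E → ℕ} (h : Newforms θ w) {A : ℕ}
    (hA : 2 ≤ A) (h0 : ∀ e, A * Nat.gcd (w 0 e) (w 2 e) ≤ w 2 e)
    (h1 : ∀ e, A * Nat.gcd (w 1 e) (w 2 e) ≤ w 2 e) {α β : Fin 3 → ℝ} {I : Fin 3 → Set ℝ}
    (hI : ∀ i, IsInterval (α i) (β i) (I i)) :
    Within θ I (∏ i, st (α i) (β i))
      (2 * ((endErr A (α 0) + endErr A (β 0)) * (endErr A (α 1) + endErr A (β 1)))) := by
  intro η hη
  obtain ⟨M, hM⟩ := exists_nat_gt (max (320 / η) 2)
  have hM1 : 320 / η < M := (le_max_left _ _).trans_lt hM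
  have hM2 : 2 ≤ M := by
    have : (2 : ℝ) < M := (le_max_right _ _).trans_lt hM
    have : 2 < M := by exact_mod_cast this
    omega
  have h2 := general h (A := ![A, A, M])
    (fun i => by fin_cases i <;> simp only [Fin.zero_eta, Fin.mk_one, Fin.reduceFinMk,
      Matrix.cons_val] <;> assumption)
    (by norm_num) (sums_two h.pos h0 h1) hI (η / 2) (by positivity)
  filter_upwards [h2] with N hN
  have := bound_third hA hη hM2 hM1 α β
  linarith

theorem st_pos {α β : ℝ} {I : Set ℝ} (hI : IsInterval α β I) : 0 < st α β := by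
  obtain ⟨h0, h1, h2, -⟩ := hI
  unfold st
  refine mul_pos (by positivity) ?_
  refine intervalIntegral.intervalIntegral_pos_of_pos_on
    ((by fun_prop : Continuous fun t : ℝ => Real.sin t ^ 2).intervalIntegrable _ _) ?_ h1
  intro x hx
  have := Real.sin_pos_of_pos_of_lt_pi (h0.trans_lt hx.1) (hx.2.trans_le h2)
  positivity

theorem bound_fin4 (ε : Fin 4 → ℝ) : bound 3 ε = 2 * (ε 0 * ε 1 * ε 2 * (1 + ε 3) +
    ε 0 * ε 1 * ε 3 * (1 + ε 2) + ε 0 * ε 2 * ε 3 * (1 + ε 1) + ε 1 * ε 2 * ε 3 * (1 + ε 0) +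
    ε 0 * ε 1 * ε 2 * ε 3) := by
  unfold bound
  have h1 : (univ.powerset.filter fun B : Finset (Fin 4) => 3 ≤ B.card) =
      {{0, 1, 2}, {0, 1, 3}, {0, 2, 3}, {1, 2, 3}, {0, 1, 2, 3}} := by decide
  have c1 : ({0, 1, 2} : Finset (Fin 4))ᶜ = {3} := by decide
  have c2 : ({0, 1, 3} : Finset (Fin 4))ᶜ = {2} := by decide
  have c3 : ({0, 2, 3} : Finset (Fin 4))ᶜ = {1} := by decide
  have c4 : ({1, 2, 3} : Finset (Fin 4))ᶜ = {0} := by decide
  have c5 : ({0, 1, 2, 3} : Finset (Fin 4))ᶜ = ∅ := by decide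
  rw [h1, Finset.sum_insert (by decide), Finset.sum_insert (by decide),
    Finset.sum_insert (by decide), Finset.sum_insert (by decide), Finset.sum_singleton,
    c1, c2, c3, c4, c5]
  have p1 : ∏ i ∈ ({0, 1, 2} : Finset (Fin 4)), ε i = ε 0 * ε 1 * ε 2 := by
    rw [Finset.prod_insert (by decide), Finset.prod_insert (by decide), Finset.prod_singleton]
    ring
  have p2 : ∏ i ∈ ({0, 1, 3} : Finset (Fin 4)), ε i = ε 0 * ε 1 * ε 3 := by
    rw [Finset.prod_insert (by decide), Finset.prod_insert (by decide), Finset.prod_singleton]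
    ring
  have p3 : ∏ i ∈ ({0, 2, 3} : Finset (Fin 4)), ε i = ε 0 * ε 2 * ε 3 := by
    rw [Finset.prod_insert (by decide), Finset.prod_insert (by decide), Finset.prod_singleton]
    ring
  have p4 : ∏ i ∈ ({1, 2, 3} : Finset (Fin 4)), ε i = ε 1 * ε 2 * ε 3 := by
    rw [Finset.prod_insert (by decide), Finset.prod_insert (by decide), Finset.prod_singleton]
    ring
  have p5 : ∏ i ∈ ({0, 1, 2, 3} : Finset (Fin 4)), ε i = ε 0 * ε 1 * ε 2 * ε 3 := by
    rw [Finset.prod_insert (by decide), Finset.prod_insert (by decide),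
      Finset.prod_insert (by decide), Finset.prod_singleton]
    ring
  rw [p1, p2, p3, p4, p5, Finset.prod_singleton, Finset.prod_singleton, Finset.prod_singleton,
    Finset.prod_singleton, Finset.prod_empty]
  ring

/-- the motivic weights `k - 1` of the six newforms of level one with rational coefficients -/
def levelOne : Fin 6 → ℕ := ![11, 15, 17, 19, 21, 25]

/-- the thresholds for three of them -/
def thr (u : Fin 3 → Fin 6) (i : Fin 3) : ℕ :=
  ∑ j ∈ univ.erase i, levelOne (u j) / Nat.gcd (levelOne (u i)) (levelOne (u j)) - 1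

theorem thr_two : ∀ u : Fin 3 → Fin 6, Function.Injective u → ∀ i, 2 ≤ thr u i := by
  decide +kernel

theorem thr_bound : ∀ u : Fin 3 → Fin 6, Function.Injective u →
    16 * ((thr u 0 - 1) * (thr u 1 - 1) * (thr u 2 - 1)) * 100000 ≤
      186 * (thr u 0 * thr u 0 * (thr u 1 * thr u 1) * (thr u 2 * thr u 2)) := by
  decide +kernel

theorem sums_levelOne {E : Type} {u : Fin 3 → Fin 6} (hu : Function.Injective u)
    (hw : ∀ (i : Fin 3) (e : E), 0 < (fun i (_ : E) => levelOne (u i)) i e) :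
    Sums (fun i (_ : E) => levelOne (u i)) (thr u) 3 := by
  have hpos : ∀ x : Fin 6, 0 < levelOne x := by decide
  refine sums_three hw (by simp)
    (fun i j => levelOne (u j) / Nat.gcd (levelOne (u i)) (levelOne (u j))) ?_ ?_ ?_
  · intro i j _
    exact Nat.div_pos (Nat.le_of_dvd (hpos _) (Nat.gcd_dvd_right _ _))
      (Nat.gcd_pos_of_pos_left _ (hpos _))
  · intro i j _ e
    exact (Nat.div_mul_cancel (Nat.gcd_dvd_right _ _)).le
  · intro i
    have h2 := thr_two u hu i
    unfold thr at h2 ⊢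
    omega

/-- the error of the sign patterns for three forms -/
theorem sign_err {A : Fin 3 → ℕ} (hA : ∀ i, 2 ≤ A i) {p : ℕ}
    (h : 16 * ((A 0 - 1) * (A 1 - 1) * (A 2 - 1)) * 100000 ≤
      p * (A 0 * A 0 * (A 1 * A 1) * (A 2 * A 2))) :
    bound 3 (fun i => 1 / (A i : ℝ) * (2 - 2 / A i)) ≤ (p : ℝ) / 100000 := by
  rw [bound_three (by simp), Fin.prod_univ_three]
  have h0 := hA 0
  have h1 := hA 1
  have h2 := hA 2
  obtain ⟨a, ha⟩ := Nat.exists_eq_add_of_le h0
  obtain ⟨b, hb⟩ := Nat.exists_eq_add_of_le h1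
  obtain ⟨c, hc⟩ := Nat.exists_eq_add_of_le h2
  rw [ha, hb, hc] at h ⊢
  have e1 : 2 + a - 1 = 1 + a := by omega
  have e2 : 2 + b - 1 = 1 + b := by omega
  have e3 : 2 + c - 1 = 1 + c := by omega
  rw [e1, e2, e3] at h
  have h' : (16 : ℝ) * ((1 + a) * (1 + b) * (1 + c)) * 100000 ≤
      p * ((2 + a) * (2 + a) * ((2 + b) * (2 + b)) * ((2 + c) * (2 + c))) := by exact_mod_cast h
  push_cast
  have hx : (0 : ℝ) < 2 + a := by positivity
  have hy : (0 : ℝ) < 2 + b := by positivity
  have hz : (0 : ℝ) < 2 + c := by positivity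
  have key : 2 * (1 / (2 + (a : ℝ)) * (2 - 2 / (2 + a)) * (1 / (2 + (b : ℝ)) * (2 - 2 / (2 + b))) *
      (1 / (2 + (c : ℝ)) * (2 - 2 / (2 + c)))) = 16 * ((1 + a) * (1 + b) * (1 + c)) /
      ((2 + a) * (2 + a) * ((2 + b) * (2 + b)) * ((2 + c) * (2 + c))) := by
    field_simp
    ring
  rw [key, div_le_div_iff₀ (by positivity) (by norm_num)]
  linarith

/-- **Approximate joint Sato-Tate laws.** -/
theorem result :
    -- (0) the general estimate
    (∀ (K : Type) [Field K] [NumberField K] (ι E : Type) [Fintype ι] [DecidableEq ι]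
      (θ : ι → HeightOneSpectrum (𝓞 K) → ℝ) (w : ι → E → ℕ), Newforms θ w →
      ∀ (A : ι → ℕ), (∀ i, 2 ≤ A i) → ∀ (α β : ι → ℝ) (I : ι → Set ℝ),
      (∀ i, IsInterval (α i) (β i) (I i)) →
      (∀ k : ℕ, 2 ≤ k → Sums w A k → Within θ I (∏ i, st (α i) (β i))
        (2 * ∑ B ∈ univ.powerset.filter (fun B : Finset ι => k ≤ B.card),
          (∏ i ∈ B, (endErr (A i) (α i) + endErr (A i) (β i))) *
            ∏ i ∈ Bᶜ, (1 + (endErr (A i) (α i) + endErr (A i) (β i))))) ∧
      -- (1) three newforms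
      (Fintype.card ι = 3 → ∀ P : ι → ι → ℕ, (∀ i j, i ≠ j → 1 ≤ P i j) →
        (∀ i j, i ≠ j → ∀ e, P i j * Nat.gcd (w i e) (w j e) ≤ w j e) →
        (∀ i, A i + 1 ≤ ∑ j ∈ univ.erase i, P i j) →
        Within θ I (∏ i, st (α i) (β i))
          (2 * ∏ i, (endErr (A i) (α i) + endErr (A i) (β i))) ∧
        2 * ∏ i, (endErr (A i) (α i) + endErr (A i) (β i)) ≤ 128 / ∏ i, (A i : ℝ)) ∧
      -- (2) four newforms
      (Fintype.card ι = 4 → (∀ i j, i ≠ j → ∀ e, A i * Nat.gcd (w i e) (w j e) ≤ w j e) →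
        Within θ I (∏ i, st (α i) (β i))
          (2 * ∑ B ∈ univ.powerset.filter (fun B : Finset ι => 3 ≤ B.card),
            (∏ i ∈ B, (4 / A i : ℝ)) * ∏ i ∈ Bᶜ, (1 + 4 / A i : ℝ)))) ∧
    -- (3) any number of newforms
    (∀ (K : Type) [Field K] [NumberField K] (ι E : Type) [Fintype ι] [DecidableEq ι]
      (θ : ι → HeightOneSpectrum (𝓞 K) → ℝ) (w : ι → E → ℕ), Newforms θ w →
      ∀ (α β : ι → ℝ) (I : ι → Set ℝ), (∀ i, IsInterval (α i) (β i) (I i)) →
      ∀ R : ℕ, 1 ≤ R → Distinct w (fun _ => R) → Within θ I (∏ i, st (α i) (β i))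
        (2 * (Fintype.card ι : ℝ) ^ 2 * (4 / (R + 1)) ^ 2 *
          (1 + 2 * (4 / (R + 1))) ^ Fintype.card ι)) ∧
    -- (4) three of the weights 12, 16, 18, 20, 22, 26
    (∀ (K : Type) [Field K] [NumberField K] (E : Type) (u : Fin 3 → Fin 6)
      (θ : Fin 3 → HeightOneSpectrum (𝓞 K) → ℝ), Function.Injective u →
      Newforms θ (fun i (_ : E) => levelOne (u i)) →
      ∀ σ : Fin 3 → ℝ, (∀ i, σ i = 1 ∨ σ i = -1) → ∀ᶠ N : ℕ in atTop,
        |proportion {v | ∀ i, 0 < σ i * Real.cos (θ i v)} N - 1 / 8| ≤ 0.0019 ∧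
        (u = ![0, 1, 2] →
          |proportion {v | ∀ i, 0 < σ i * Real.cos (θ i v)} N - 1 / 8| ≤ 0.0007)) ∧
    -- (5) the weights 12, 16, 18, 20
    (∀ (K : Type) [Field K] [NumberField K] (E : Type)
      (θ : Fin 4 → HeightOneSpectrum (𝓞 K) → ℝ), Newforms θ (fun i (_ : E) => ![11, 15, 17, 19] i) →
      ∀ σ : Fin 4 → ℝ, (∀ i, σ i = 1 ∨ σ i = -1) → ∀ᶠ N : ℕ in atTop,
        |proportion {v | ∀ i, 0 < σ i * Real.cos (θ i v)} N - 1 / 16| ≤ 0.0351) ∧
    -- (6) two newforms of arbitrary weights and a third one of a large weight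
    (∀ (K : Type) [Field K] [NumberField K] (E : Type)
      (θ : Fin 3 → HeightOneSpectrum (𝓞 K) → ℝ) (w : Fin 3 → E → ℕ), Newforms θ w →
      ∀ A : ℕ, 2 ≤ A → (∀ i, i ≠ 2 → ∀ e, A * Nat.gcd (w i e) (w 2 e) ≤ w 2 e) →
      (∀ (α β : Fin 3 → ℝ) (I : Fin 3 → Set ℝ), (∀ i, IsInterval (α i) (β i) (I i)) →
        Within θ I (∏ i, st (α i) (β i)) (32 / A ^ 2)) ∧
      (∀ σ : Fin 3 → ℝ, (∀ i, σ i = 1 ∨ σ i = -1) → ∀ η : ℝ, 0 < η → ∀ᶠ N : ℕ in atTop,
        |proportion {v | ∀ i, 0 < σ i * Real.cos (θ i v)} N - 1 / 8| ≤ 8 / A ^ 2 + η) ∧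
      ((∀ e, w 0 e = 1 ∧ w 1 e = 1 ∧ w 2 e = 11) →
        ∀ σ : Fin 3 → ℝ, (∀ i, σ i = 1 ∨ σ i = -1) → ∀ᶠ N : ℕ in atTop,
        |proportion {v | ∀ i, 0 < σ i * Real.cos (θ i v)} N - 1 / 8| ≤ 0.0547)) ∧
    -- (7) relative errors for any number of newforms
    (∀ (K : Type) [Field K] [NumberField K] (ι E : Type) [Fintype ι] [DecidableEq ι]
      (θ : ι → HeightOneSpectrum (𝓞 K) → ℝ) (w : ι → E → ℕ), Newforms θ w →
      (∀ A : ι → ℕ, (∀ i, 2 ≤ A i) → Sums w A 1 → ∀ (α β : ι → ℝ) (I : ι → Set ℝ),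
        (∀ i, IsInterval (α i) (β i) (I i)) → ∀ η : ℝ, 0 < η → ∀ᶠ N : ℕ in atTop,
        (∏ i, st (α i) (β i)) * (1 - 2 * ∑ i, (endErr (A i) (α i) + endErr (A i) (β i)) /
          st (α i) (β i)) - η ≤ proportion {v | ∀ i, θ i v ∈ I i} N ∧
        proportion {v | ∀ i, θ i v ∈ I i} N ≤
          ∏ i, (st (α i) (β i) + 2 * (endErr (A i) (α i) + endErr (A i) (β i))) + η) ∧
      ∀ R : ℕ, 1 ≤ R → Distinct w (fun _ => R) →
        Sums w (fun _ => 2 * R + 1) 1 ∧
        ∀ σ : ι → ℝ, (∀ i, σ i = 1 ∨ σ i = -1) → ∀ η : ℝ, 0 < η → ∀ᶠ N : ℕ in atTop,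
        (1 / 2) ^ Fintype.card ι * (1 - 4 * Fintype.card ι / ((R : ℝ) + 1)) - η ≤
          proportion {v | ∀ i, 0 < σ i * Real.cos (θ i v)} N ∧
        proportion {v | ∀ i, 0 < σ i * Real.cos (θ i v)} N ≤
          (1 / 2) ^ Fintype.card ι * (1 + 4 / ((R : ℝ) + 1)) ^ Fintype.card ι + η) := by
  refine ⟨?_, ?_, ?_, ?_, ?_, ?_⟩
  · intro K _ _ ι E _ _ θ w h A hA α β I hI
    have hreg := Pool.Agent.H189.WS.t_reg ι E w A h.pos
    have hA' : ∀ i, (2 : ℝ) ≤ A i := fun i => by exact_mod_cast hA i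
    have hε0 : ∀ i, 0 ≤ endErr (A i) (α i) + endErr (A i) (β i) := fun i =>
      add_nonneg (endErr_nonneg (hA i) _) (endErr_nonneg (hA i) _)
    have hε4 : ∀ i, endErr (A i) (α i) + endErr (A i) (β i) ≤ 4 / A i := fun i => by
      have h1 := endErr_le (hA i) (α i)
      have h2 := endErr_le (hA i) (β i)
      have : (4 : ℝ) / A i = 2 / A i + 2 / A i := by ring
      rw [this]
      exact add_le_add h1 h2
    refine ⟨fun k hk hs => general h hA hk hs hI, fun hc P hP1 hP2 hP3 => ⟨?_, ?_⟩,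
      fun hc hw => ?_⟩
    · have h1 := general h hA (by norm_num) (sums_three h.pos hc P hP1 hP2 hP3) hI
      rw [bound_three hc] at h1
      exact h1
    · have h1 : ∏ i, (endErr (A i) (α i) + endErr (A i) (β i)) ≤ ∏ i, (4 / A i : ℝ) :=
        Finset.prod_le_prod (fun i _ => hε0 i) fun i _ => hε4 i
      have h2 : ∏ i, (4 / A i : ℝ) = 64 / ∏ i, (A i : ℝ) := by
        rw [Finset.prod_div_distrib, Finset.prod_const, Finset.card_univ, hc]
        norm_num
      rw [h2] at h1
      calc 2 * ∏ i, (endErr (A i) (α i) + endErr (A i) (β i)) ≤ 2 * (64 / ∏ i, (A i : ℝ)) := by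
            linarith
        _ = 128 / ∏ i, (A i : ℝ) := by ring
    · have h1 := general h hA (by norm_num) (sums_of_splits (hreg.2.1 hc hw)) hI
      intro η hη
      filter_upwards [h1 η hη] with N hN
      exact hN.trans (add_le_add (bound_mono hε0 hε4) le_rfl)
  · intro K _ _ ι E _ _ θ w h α β I hI R hR hreg3
    have hreg := Pool.Agent.H189.WS.t_reg ι E w (fun _ => R + 1) h.pos
    have h1 := general h (A := fun _ => R + 1) (fun _ => by omega) (by norm_num)
      (sums_of_splits (hreg.2.2 R hreg3)) hI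
    intro η hη
    filter_upwards [h1 η hη] with N hN
    have h2 : bound 2 (fun i : ι => endErr (R + 1) (α i) + endErr (R + 1) (β i)) ≤
        bound 2 (fun _ : ι => (4 / ((R : ℝ) + 1))) := by
      refine bound_mono (fun i => add_nonneg (endErr_nonneg (by omega) _)
        (endErr_nonneg (by omega) _)) fun i => ?_
      have h3 := endErr_le (A := R + 1) (by omega) (α i)
      have h4 := endErr_le (A := R + 1) (by omega) (β i)
      push_cast at h3 h4
      have : (4 : ℝ) / ((R : ℝ) + 1) = 2 / (R + 1) + 2 / (R + 1) := by ring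
      rw [this]
      exact add_le_add h3 h4
    have h3 := bound_two (ι := ι) (x := 4 / ((R : ℝ) + 1)) (by positivity)
    have h4 := h2.trans h3
    linarith
  · intro K _ _ E u θ hu h σ hσ
    have e1 : ((1 : ℝ) / 2) ^ Fintype.card (Fin 3) = 1 / 8 := by
      rw [Fintype.card_fin]; norm_num
    have h1 := signs h (thr_two u hu) (by norm_num) (sums_levelOne hu h.pos) hσ
      (η := 0.00001) (by norm_num)
    have h2 := sign_err (thr_two u hu) (p := 186) (thr_bound u hu)
    filter_upwards [h1] with N hN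
    rw [e1] at hN
    refine ⟨hN.trans ?_, fun hu2 => hN.trans ?_⟩
    · norm_num at h2 ⊢
      linarith
    · have h3 := sign_err (thr_two u hu) (p := 69) (by
        rw [hu2]
        decide)
      norm_num at h3 ⊢
      linarith
  · intro K _ _ E θ h σ hσ
    have hreg := Pool.Agent.H189.WS.t_reg (Fin 4) E (fun i (_ : E) => ![11, 15, 17, 19] i)
      ![15, 11, 11, 11] h.pos
    have hs := hreg.2.1 (by simp) (by
      intro i j hij e
      revert hij
      revert i j
      decide)
    have h1 := signs h (A := ![15, 11, 11, 11]) (by intro i; fin_cases i <;> simp) (by norm_num)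
      (sums_of_splits hs) hσ (η := 0.00004) (by norm_num)
    filter_upwards [h1] with N hN
    rw [bound_fin4] at hN
    have e1 : ((1 : ℝ) / 2) ^ Fintype.card (Fin 4) = 1 / 16 := by
      rw [Fintype.card_fin]; norm_num
    rw [e1] at hN
    refine hN.trans ?_
    simp
    norm_num
  · intro K _ _ E θ w h A hA hw
    have sg : ∀ B : ℕ, 2 ≤ B → (∀ i, i ≠ 2 → ∀ e, B * Nat.gcd (w i e) (w 2 e) ≤ w 2 e) →
        ∀ σ : Fin 3 → ℝ, (∀ i, σ i = 1 ∨ σ i = -1) → ∀ η : ℝ, 0 < η → ∀ᶠ N : ℕ in atTop,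
        |proportion {v | ∀ i, 0 < σ i * Real.cos (θ i v)} N - 1 / 8| ≤
          2 * ((1 / (B : ℝ) * (2 - 2 / B)) * (1 / (B : ℝ) * (2 - 2 / B))) + η := by
      intro B hB hwB σ hσ η hη
      have h1 := third h hB (hwB 0 (by decide)) (hwB 1 (by decide))
        (fun i => isInterval_sgn (σ i)) η hη
      have e1 : ((1 : ℝ) / 2) ^ Fintype.card (Fin 3) = 1 / 8 := by
        rw [Fintype.card_fin]; norm_num
      simp only [st_sgn, endErr_sgn, Finset.prod_const, Finset.card_univ, e1] at h1
      rw [sgn_box h.angle hσ]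
      exact h1
    have hA' : (2 : ℝ) ≤ A := by exact_mod_cast hA
    refine ⟨fun α β I hI => ?_, fun σ hσ η hη => ?_, fun hw2 σ hσ => ?_⟩
    · intro η hη
      filter_upwards [third h hA (hw 0 (by decide)) (hw 1 (by decide)) hI η hη] with N hN
      refine hN.trans (add_le_add ?_ le_rfl)
      have b : ∀ x y : ℝ, endErr A x + endErr A y ≤ 4 / A := fun x y => by
        have h1 := endErr_le hA x
        have h2 := endErr_le hA y
        have : (4 : ℝ) / A = 2 / A + 2 / A := by ring
        rw [this]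
        exact add_le_add h1 h2
      have h3 : (endErr A (α 0) + endErr A (β 0)) * (endErr A (α 1) + endErr A (β 1)) ≤
          4 / A * (4 / A) := mul_le_mul (b _ _) (b _ _)
        (add_nonneg (endErr_nonneg hA _) (endErr_nonneg hA _)) (by positivity)
      have h4 : (32 : ℝ) / A ^ 2 = 2 * (4 / A * (4 / A)) := by
        field_simp
        norm_num
      rw [h4]
      linarith
    · filter_upwards [sg A hA hw σ hσ η hη] with N hN
      refine hN.trans (add_le_add ?_ le_rfl)
      have h3 : 1 / (A : ℝ) * (2 - 2 / A) ≤ 2 / A := by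
        have h5 : (0 : ℝ) ≤ 1 / A * (2 / A) := by positivity
        have h6 : 1 / (A : ℝ) * (2 - 2 / A) = 2 / A - 1 / A * (2 / A) := by ring
        linarith
      have h5 : (0 : ℝ) ≤ 1 / (A : ℝ) * (2 - 2 / A) := by
        have : 2 / (A : ℝ) ≤ 1 := by
          rw [div_le_one (by linarith)]
          exact hA'
        exact mul_nonneg (by positivity) (by linarith)
      have h4 : (8 : ℝ) / A ^ 2 = 2 * (2 / A * (2 / A)) := by
        field_simp
        norm_num
      rw [h4]
      have := mul_le_mul h3 h3 h5 (by positivity)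
      linarith
    · have hw11 : ∀ i : Fin 3, i ≠ 2 → ∀ e, 11 * Nat.gcd (w i e) (w 2 e) ≤ w 2 e := by
        intro i hi e
        obtain ⟨h0, h1, h2⟩ := hw2 e
        have h3 : w i e = 1 := by
          fin_cases i
          · exact h0
          · exact h1
          · exact absurd rfl hi
        rw [h3, h2]
        decide
      filter_upwards [sg 11 (by norm_num) hw11 σ hσ 0.00001 (by norm_num)] with N hN
      refine hN.trans ?_
      norm_num
  · intro K _ _ ι E _ _ θ w h
    refine ⟨fun A hA hs α β I hI η hη => rel_main step Pool.Agent.H63.WS.PCombo.t_combo h hA hs hI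
      (fun i => st_pos (hI i)) hη, fun R hR hd => ⟨sums_double hd, fun σ hσ η hη => ?_⟩⟩
    have h1 := rel_main step Pool.Agent.H63.WS.PCombo.t_combo h (A := fun _ => 2 * R + 1)
      (fun _ => by omega) (sums_double hd) (fun i => isInterval_sgn (σ i))
      (fun i => st_pos (isInterval_sgn (σ i))) hη
    simp only [st_sgn, endErr_sgn, Finset.prod_const, Finset.card_univ, Finset.sum_const,
      nsmul_eq_mul] at h1
    have hR' : (1 : ℝ) ≤ R := by exact_mod_cast hR
    have hε : 1 / ((2 * R + 1 : ℕ) : ℝ) * (2 - 2 / ((2 * R + 1 : ℕ) : ℝ)) ≤ 1 / ((R : ℝ) + 1) := by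
      push_cast
      have h2 : (0 : ℝ) < 2 * R + 1 := by positivity
      have h3 : 1 / (2 * (R : ℝ) + 1) * (2 - 2 / (2 * R + 1)) = 4 * R / (2 * R + 1) ^ 2 := by
        field_simp
        ring
      rw [h3, div_le_div_iff₀ (by positivity) (by positivity)]
      nlinarith
    have hε0 : 0 ≤ 1 / ((2 * R + 1 : ℕ) : ℝ) * (2 - 2 / ((2 * R + 1 : ℕ) : ℝ)) := by
      have h2 : (2 : ℝ) / ((2 * R + 1 : ℕ) : ℝ) ≤ 1 := by
        rw [div_le_one (by positivity)]
        push_cast
        linarith
      exact mul_nonneg (by positivity) (by linarith)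
    set ε : ℝ := 1 / ((2 * R + 1 : ℕ) : ℝ) * (2 - 2 / ((2 * R + 1 : ℕ) : ℝ))
    have hn0 : (0 : ℝ) ≤ Fintype.card ι := Nat.cast_nonneg _
    filter_upwards [h1] with N hN
    rw [sgn_box h.angle hσ]
    obtain ⟨lo, up⟩ := hN
    constructor
    · refine le_trans ?_ lo
      have h2 : (1 / 2 : ℝ) ^ Fintype.card ι * (1 - 4 * Fintype.card ι / ((R : ℝ) + 1)) ≤
          (1 / 2) ^ Fintype.card ι * (1 - 2 * (Fintype.card ι * (ε / (1 / 2)))) := by
        refine mul_le_mul_of_nonneg_left ?_ (by positivity)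
        have h3 : (Fintype.card ι : ℝ) * ε ≤ Fintype.card ι * (1 / ((R : ℝ) + 1)) :=
          mul_le_mul_of_nonneg_left hε hn0
        have h4 : 4 * (Fintype.card ι : ℝ) / ((R : ℝ) + 1) =
            4 * (Fintype.card ι * (1 / ((R : ℝ) + 1))) := by ring
        rw [h4]
        linarith
      linarith
    · refine up.trans ?_
      have h2 : (1 / 2 + 2 * ε) ^ Fintype.card ι ≤
          (1 / 2) ^ Fintype.card ι * (1 + 4 / ((R : ℝ) + 1)) ^ Fintype.card ι := by
        rw [← mul_pow]
        refine pow_le_pow_left₀ (by positivity) ?_ _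
        have h4 : (4 : ℝ) / ((R : ℝ) + 1) = 4 * (1 / ((R : ℝ) + 1)) := by ring
        rw [h4]
        linarith
      linarith

end Pool.Agent.Results.MP_4c4ce6_nt.DifferentWeights
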