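import Mathlib
import Pool.Agent.H419.LC.FamMod

set_option autoImplicit false

/-!
# Sato-Tate averages in residue classes to large moduli

`K` is a number field, `G` a compact group (the Sato-Tate group over `K` of a compatible family as
in the problem, or a larger compact group), and `x_v ∈ G` an element of the class of the prime `v`
of `K` (any element at the finitely many exceptional primes); `q_v` is the norm of `v`. Nothing is
assumed about the `x_v`.

Let `𝓕` be a compact set of continuous class functions, for instance all class functions which are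
bounded by `1` and have Lipschitz constant `1` for some metric, and `ε, η > 0`. A modulus `m` is
called regular at the scale `N` (`RegularFam`) if for all reduced residue classes `c` modulo `m`,
apart from at most `η φ(m)`, the number of the primes `v` with `q_v ≤ N` and `q_v ≡ c (mod m)` is
the expected one, up to a factor between `1 - η` and `1 + η`, and for all `f ∈ 𝓕` the mean value of
`f(x_v)` over these `v` differs by at most `η` from the mean value over all `v` with `q_v ≤ N`.

1. There are `C` and `N₀`, which depend on `K`, `G`, `𝓕`, `ε` and `η` but not on the `x_v`, such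
   that for all `N ≥ N₀` among any `C + 1` pairwise coprime moduli `m ≤ N ^ (1/2 - ε)` at least
   one is regular. So all but at most `C` primes `p ≤ N ^ (1/2 - ε)` are regular moduli.
2. If the Sato-Tate law holds for the `x_v`, then for all large `N` the same is true with the value
   `∫ f dμ` which is predicted by the law, in place of the mean value over all `v`. So the law
   is true, up to `η`, in almost all residue classes modulo all but `C` of the primes
   `p ≤ N ^ (1/2 - ε)`, where the modulus grows with `N`.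
3. The exponent `1/2` is optimal: for all `ε > 0`, `C` and all large `N` there are `x_v` in the
   circle group and more than `C` primes `p ≤ N ^ (1/2 + ε)` which are not regular moduli at the
   scale `N` for the character `f(x) = x` and `η = 1/10`.

Proof of 1: the large sieve, dual form, with Selberg's weights as a majorant of the primes, and the
inequality of Pólya and Vinogradov. It gives the same bound for the sum of the variances over any
number of pairwise coprime moduli as for a single one.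
-/

namespace Pool.Agent.Results.MP_4c4ce6_nt.LargeModuli

open NumberField IsDedekindDomain Filter Topology MeasureTheory
open Pool.Agent.H419.BS (q mean meanAll Equidistributed)
open Pool.Agent.H419.LC (CountOK RegularFam)

/-- For all reduced classes `c` modulo `m`, apart from at most `η φ(m)`, the number of the primes
`v` with `q_v ≤ N` in the class is the expected one up to `1 ± η`, and for all `f ∈ 𝓕` the mean
value of `f (x v)` over them differs by at most `η` from `∫ f dμ`. -/
def LawFam {K : Type} [Field K] [NumberField K] {G : Type} [Group G] [TopologicalSpace G]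
    [MeasurableSpace G] (μ : Measure G) (𝓕 : Set C(G, ℂ)) (η : ℝ)
    (x : HeightOneSpectrum (𝓞 K) → G) (N m : ℕ) : Prop :=
  ∃ B : Finset (ZMod m)ˣ, (B.card : ℝ) ≤ η * Nat.totient m ∧ ∀ c ∉ B, CountOK K η N m c ∧
    ∀ f ∈ 𝓕, ‖mean (fun v => (q v : ZMod m) = c) (fun v => f (x v)) N - ∫ g, f g ∂μ‖ ≤ η

/-- The inclusion of the circle in the complex numbers. -/
noncomputable def incl : C(Circle, ℂ) := ⟨fun z => z, by fun_prop⟩

/-- **Sato-Tate averages in residue classes to large moduli.** -/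
theorem result (K : Type) [Field K] [NumberField K] :
    (∀ (G : Type) [Group G] [TopologicalSpace G] [IsTopologicalGroup G] [CompactSpace G]
      [MeasurableSpace G] [BorelSpace G] (μ : Measure G) [IsProbabilityMeasure μ]
      [μ.IsHaarMeasure] (𝓕 : Set C(G, ℂ)) (_ : IsCompact 𝓕)
      (_ : ∀ f ∈ 𝓕, ∀ g h, f (h * g * h⁻¹) = f g) (ε η : ℝ) (_ : 0 < ε) (_ : 0 < η),
      ∃ C N₀ : ℕ, ∀ x : HeightOneSpectrum (𝓞 K) → G,
        -- 1. arbitrary classes
        (∀ N : ℕ, N₀ ≤ N → ∀ 𝒬 : Finset ℕ,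
          (∀ m ∈ 𝒬, m ≠ 0 ∧ (m : ℝ) ≤ (N : ℝ) ^ (1 / 2 - ε) ∧ ¬ RegularFam 𝓕 η x N m) →
          (∀ m ∈ 𝒬, ∀ m' ∈ 𝒬, m ≠ m' → m.Coprime m') → 𝒬.card ≤ C) ∧
        -- 2. equidistributed classes
        (Equidistributed (fun _ => True) x μ → ∃ N₁ : ℕ, ∀ N : ℕ, N₁ ≤ N → ∀ 𝒬 : Finset ℕ,
          (∀ m ∈ 𝒬, m ≠ 0 ∧ (m : ℝ) ≤ (N : ℝ) ^ (1 / 2 - ε) ∧ ¬ LawFam μ 𝓕 η x N m) →
          (∀ m ∈ 𝒬, ∀ m' ∈ 𝒬, m ≠ m' → m.Coprime m') → 𝒬.card ≤ C)) ∧
    -- 3. the exponent is optimal
    (∀ ε : ℝ, 0 < ε → ∀ C : ℕ, ∃ N₀ : ℕ, ∀ N : ℕ, N₀ ≤ N →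
      ∃ (x : HeightOneSpectrum (𝓞 K) → Circle) (𝒬 : Finset ℕ), C < 𝒬.card ∧
        ∀ p ∈ 𝒬, p.Prime ∧ (p : ℝ) ≤ (N : ℝ) ^ (1 / 2 + ε) ∧
          ¬ RegularFam {incl} (1 / 10) x N p) := by
  classical
  refine ⟨?_, ?_⟩
  · intro G _ _ _ _ _ _ μ _ _ 𝓕 h𝓕 hcl ε η hε hη
    obtain ⟨C, N₀, h⟩ := Pool.Agent.H419.LC.fam_mod K 𝓕 h𝓕 ε (η / 2) hε (by positivity)
    have hmono : ∀ (x : HeightOneSpectrum (𝓞 K) → G) (N m : ℕ), RegularFam 𝓕 (η / 2) x N m →
        (∀ f ∈ 𝓕, ‖meanAll (fun v => f (x v)) N - ∫ g, f g ∂μ‖ ≤ η / 2) →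
        LawFam μ 𝓕 η x N m := by
      rintro x N m ⟨B, hB, hc⟩ hf
      refine ⟨B, hB.trans (by gcongr; linarith), fun c hcB => ⟨?_, fun f hf𝓕 => ?_⟩⟩
      · have := (hc c hcB).1
        unfold CountOK at this ⊢
        refine this.trans ?_
        gcongr
        linarith
      · have h1 := (hc c hcB).2 f hf𝓕
        have h2 := hf f hf𝓕
        calc ‖mean (fun v => (q v : ZMod m) = c) (fun v => f (x v)) N - ∫ g, f g ∂μ‖
            = ‖(mean (fun v => (q v : ZMod m) = c) (fun v => f (x v)) N -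
              meanAll (fun v => f (x v)) N) + (meanAll (fun v => f (x v)) N - ∫ g, f g ∂μ)‖ := by
              congr 1; ring
          _ ≤ _ := (norm_add_le _ _).trans (by linarith)
    have hmono2 : ∀ (x : HeightOneSpectrum (𝓞 K) → G) (N m : ℕ), RegularFam 𝓕 (η / 2) x N m →
        RegularFam 𝓕 η x N m := by
      rintro x N m ⟨B, hB, hc⟩
      refine ⟨B, hB.trans (by gcongr; linarith), fun c hcB => ⟨?_, fun f hf𝓕 => ?_⟩⟩
      · have := (hc c hcB).1
        unfold CountOK at this ⊢
        refine this.trans ?_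
        gcongr
        linarith
      · exact ((hc c hcB).2 f hf𝓕).trans (by linarith)
    refine ⟨C, N₀, fun x => ⟨fun N hN 𝒬 h𝒬 hco => ?_, fun hx => ?_⟩⟩
    · exact h x N hN 𝒬 (fun m hm => ⟨(h𝒬 m hm).1, (h𝒬 m hm).2.1,
        fun h' => (h𝒬 m hm).2.2 (hmono2 x N m h')⟩) hco
    · obtain ⟨N₁, hN₁⟩ := Pool.Agent.H419.LC.unif1 μ 𝓕 h𝓕 hcl (show 0 < η / 2 by positivity) hx
      refine ⟨max N₀ N₁, fun N hN 𝒬 h𝒬 hco => ?_⟩
      exact h x N ((le_max_left _ _).trans hN) 𝒬 (fun m hm => ⟨(h𝒬 m hm).1, (h𝒬 m hm).2.1,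
        fun h' => (h𝒬 m hm).2.2 (hmono x N m h' (hN₁ N ((le_max_right _ _).trans hN)))⟩) hco
  · intro ε hε C
    obtain ⟨N₀, h⟩ := Pool.Agent.H419.LC.sharp K C ε hε
    refine ⟨N₀, fun N hN => ?_⟩
    obtain ⟨θ, 𝒬, hC, h𝒬⟩ := h N hN
    refine ⟨fun v => Circle.exp (2 * Real.pi * (θ * q v)), 𝒬, hC, fun p hp => ?_⟩
    obtain ⟨h1, h2, h3⟩ := h𝒬 p hp
    refine ⟨h1, h2, fun hreg => h3 ?_⟩
    obtain ⟨B, hB, hc⟩ := hreg
    refine ⟨B, hB, fun c hcB => ⟨(hc c hcB).1, ?_⟩⟩
    have h4 := (hc c hcB).2 incl rfl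
    have e : (fun v : HeightOneSpectrum (𝓞 K) => incl (Circle.exp (2 * Real.pi * (θ * q v)))) =
        fun v => Pool.Agent.H419.LC.cx (θ * q v) := by
      funext v
      show ((Circle.exp (2 * Real.pi * (θ * q v)) : Circle) : ℂ) = _
      rw [Circle.coe_exp, Pool.Agent.H419.LC.cx]
      congr 1
      push_cast
      ring
    rw [e] at h4
    exact h4

end Pool.Agent.Results.MP_4c4ce6_nt.LargeModuli
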