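import Pool.Agent.H500.ME.All

set_option autoImplicit false
set_option linter.unusedSectionVars false

/-!
# The Sato-Tate law for systems whose residual representations have solvable image

Let `K` and `E` be number fields, `P v` a polynomial over the ring of integers of `E` for every place
`v` of `K`, and `N ≥ 2`.  Suppose that the roots of `P v` in `ℂ` have absolute value `(N v)^(w/2)` for the
places `v ∤ N` (for ONE embedding of `E` in `ℂ`), and that for a set of primes `λ` of `E` of positive upper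
density the polynomials `P v` modulo `λ` are the characteristic polynomials of the geometric Frobenius
elements for a residual representation of dimension `n` of the absolute Galois group of `K` with solvable
image.

Then for all `ℓ` and `κ : E → PadicAlgCl ℓ` there is a continuous semisimple `ℓ-adic` representation `V`
attached to `P`, and the Sato-Tate law holds for it, in the form of Weyl's criterion: for every
subrepresentation `W` of a tensor construction `V^(⊗ a) ⊗ (V*)^(⊗ b)`, the mean value over the places `v`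
of norm at most `x` of the normalized Frobenius trace `tr(Frob_v | W) / (N v)^(w(a-b)/2)` tends to the
dimension of the space of the invariants of the Tate twist `W(w(a-b)/2)` (which is `0` by convention if
`w(a-b)` is odd), for `x → ∞`.  The places are ordered by their norm (natural density), and all
isomorphisms `PadicAlgCl ℓ ≃ ℂ` are admitted.

No representation in characteristic zero, no condition at the places above `ℓ` (Hodge-Tate, de Rham), no
polarization and no geometric origin is assumed.

Steps of the proof: Mal'cev's theorem, Kummer theory and class field theory (projects SV, TH, ZO, ED): the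
system is potentially abelian, with all `ℓ-adic` members; the entries on an open subgroup are the
`ℓ-adic` characters of algebraic Hecke characters, of weight `w` (Dirichlet's unit theorem); the tensor
constructions are treated by linear algebra; on each coset of the open subgroup the traces are
replaced by class functions and Hecke characters of the fields of the cyclic quotients, and the prime
number theorem for Hecke characters is used.
-/

namespace Pool.Agent.Results.MP_4c4ce6_nt.SolvableResidualImages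

open NumberField IsDedekindDomain Filter Topology Polynomial
open Pool.Agent.W401.Cheb (GK IsFrob IsInert dens)
open Pool.Agent.H500.ME (SolvableAt Att IsCyc tens Eig)

/-- the mean value of `F` over the places of `K` of norm at most `x` -/
noncomputable def mean {K : Type} [Field K] [NumberField K] (F : HeightOneSpectrum (𝓞 K) → ℂ)
    (x : ℕ) : ℂ :=
  (∑ᶠ v ∈ {v : HeightOneSpectrum (𝓞 K) | Ideal.absNorm v.asIdeal ≤ x}, F v) /
    ({v : HeightOneSpectrum (𝓞 K) | Ideal.absNorm v.asIdeal ≤ x}.ncard : ℂ)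

theorem mean_of {K : Type} [Field K] [NumberField K] {F : HeightOneSpectrum (𝓞 K) → ℂ} {r : ℂ}
    (h : Pool.Agent.H500.ME.MV F r) : Tendsto (mean F) atTop (𝓝 r) := by
  have h1 : Tendsto (fun x : ℕ => (∑ v ∈ Pool.Agent.H500.ME.pl K x, F v) /
      (Nat.primeCounting x : ℂ)) atTop (𝓝 r) := h.nat
  have h2 : Tendsto (fun x : ℕ => (∑ _v ∈ Pool.Agent.H500.ME.pl K x, (1 : ℂ)) /
      (Nat.primeCounting x : ℂ)) atTop (𝓝 1) := (Pool.Agent.H500.ME.all_MV1 K).nat
  have h3 := h1.div h2 one_ne_zero
  rw [div_one] at h3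
  refine h3.congr' ?_
  filter_upwards [eventually_ge_atTop 2] with x hx
  have hπ : (Nat.primeCounting x : ℂ) ≠ 0 := by
    have h4 : 0 < Nat.primeCounting x := by
      have h5 := Nat.monotone_primeCounting hx
      have h6 : Nat.primeCounting 2 = 1 := by decide
      omega
    exact_mod_cast h4.ne'
  have hset : ((Pool.Agent.H500.ME.pl K x : Finset (HeightOneSpectrum (𝓞 K))) :
      Set (HeightOneSpectrum (𝓞 K))) = {v | Ideal.absNorm v.asIdeal ≤ x} := by
    unfold Pool.Agent.H500.ME.pl
    exact Set.Finite.coe_toFinset _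
  unfold mean
  rw [← hset, finsum_mem_coe_finset, Set.ncard_coe_finset, Pi.div_apply, div_div_div_cancel_right₀ hπ,
    Finset.sum_const, nsmul_eq_mul, mul_one]

theorem result (K E : Type) [Field K] [NumberField K] [Field E] [NumberField E] (N n : ℕ)
    (hN : 2 ≤ N) (P : HeightOneSpectrum (𝓞 K) → (𝓞 E)[X]) (w : ℤ) (τ : E →+* ℂ)
    (hw : ∀ v : HeightOneSpectrum (𝓞 K), (N : 𝓞 K) ∉ v.asIdeal →
      ∀ z ∈ ((P v).map (τ.comp (algebraMap (𝓞 E) E))).roots,
        ‖z‖ = (Ideal.absNorm v.asIdeal : ℝ) ^ ((w : ℝ) / 2))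
    (h : ¬ Tendsto (dens (SolvableAt N n P)) atTop (𝓝 0)) (ℓ : ℕ) [Fact ℓ.Prime]
    (κ : E →+* PadicAlgCl ℓ) :
    (∃ ρ : GK K →* GL (Fin n) (PadicAlgCl ℓ), Att N n P ℓ κ ρ) ∧
    (∃ χ : GK K →* (PadicAlgCl ℓ)ˣ, IsCyc ℓ χ) ∧
    ∀ (ι : PadicAlgCl ℓ ≃+* ℂ) (ρ : GK K →* GL (Fin n) (PadicAlgCl ℓ)), Att N n P ℓ κ ρ →
      ∀ χ : GK K →* (PadicAlgCl ℓ)ˣ, IsCyc ℓ χ → ∀ (a b m : ℕ)
      (W : GK K →* GL (Fin m) (PadicAlgCl ℓ))
      (T : Matrix ((Fin a → Fin n) × (Fin b → Fin n)) (Fin m) (PadicAlgCl ℓ)),
      Function.Injective T.mulVec →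
      (∀ g, tens a b ρ g * T = T * (W g : Matrix (Fin m) (Fin m) (PadicAlgCl ℓ))) →
      ∀ F : HeightOneSpectrum (𝓞 K) → ℂ,
        (∀ᶠ v : HeightOneSpectrum (𝓞 K) in cofinite, ∀ σ, IsFrob v σ →
          F v = ι (W σ⁻¹ : Matrix (Fin m) (Fin m) (PadicAlgCl ℓ)).trace /
            (((Ideal.absNorm v.asIdeal : ℝ) ^ (((w * ((a : ℤ) - (b : ℤ)) : ℤ) : ℝ) / 2) : ℝ) : ℂ)) →
        (∀ q : ℤ, w * ((a : ℤ) - (b : ℤ)) = 2 * q → Tendsto (mean F) atTop
          (𝓝 (Module.finrank (PadicAlgCl ℓ) (Eig W χ (-q)) : ℂ))) ∧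
        (Odd (w * ((a : ℤ) - (b : ℤ))) → Tendsto (mean F) atTop (𝓝 0)) := by
  have hP : Pool.Agent.H500.MW.PosUD (Pool.Agent.H500.TH.SolRes N n P) :=
    Pool.Agent.H500.MW.PosUD.mono (Pool.Agent.H500.MW.posUD_of_not h) fun _ hv => hv.solRes
  refine ⟨Pool.Agent.H500.ME.att_exists hN hP ℓ κ, ?_, ?_⟩
  · let j : E →+* Pool.Agent.H500.HC.QBar :=
      ((IsAlgClosed.lift : E →ₐ[ℚ] Pool.Agent.H500.HC.QBar) : E →+* Pool.Agent.H500.HC.QBar)
    obtain ⟨κ', -⟩ := Pool.Agent.H500.ED.exists_ext j κ
    exact (Pool.Agent.H500.ME.all_CYC K ℓ κ').1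
  · intro ι ρ hρ χ hχ a b m W T hT hTW F hF
    have h1 := Pool.Agent.H500.ME.mean_W Pool.Agent.H500.ME.all_CYC Pool.Agent.H500.ME.all_DUI
      Pool.Agent.H500.ME.all_TRI Pool.Agent.H500.ME.all_PUR N n hN P hP w τ hw ℓ κ ι ρ hρ χ hχ
      a b m W T (fun x hx => hT (by rw [hx, Matrix.mulVec_zero])) hTW F hF
    exact ⟨fun q hq => mean_of (h1.1 q hq), fun hodd => mean_of (h1.2 hodd)⟩

end Pool.Agent.Results.MP_4c4ce6_nt.SolvableResidualImages
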