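import Pool.Agent.H63.G3.Fin

/-!
# The approximate Sato-Tate law for `U(3)`
-/

set_option autoImplicit false

namespace Pool.Agent.Results.MP_4c4ce6_nt.UnitaryThree

open NumberField IsDedekindDomain Filter Pool.Agent.H63.G3

/-- Let `t_v ∈ ℝ³` be the angles of the Satake parameters of a regular polarizable cuspidal automorphic
representation of `GL(3)` over the CM field `K` (`Form3`), whose unitary central character has the order
`m` (`m = 0`: infinite order), and let `D` be at most `(d₁ + d₂) / gcd(d₁, d₂)` at every embedding,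
where `d₁`, `d₂` are the differences of the Hodge numbers.
(1) For all large `N` the Kantorovich distance of the distribution of the classes of `t_v`, `v` of norm at
most `N`, and of the Haar measure of `{g ∈ U(3) : det g ^ m = 1}` is at most `6 π² / (D + 2) + η`.
(2) The same for the distribution of the traces.
(3) The Lévy-Prokhorov distance is at most `8 / √(D + 2)`. -/
theorem result : ∀ (K : Type) [Field K] [NumberField K] (t : HeightOneSpectrum (𝓞 K) → Fin 3 → ℝ)
    (E : Type) (d1 d2 : E → ℕ) (m D : ℕ), Form3 t d1 d2 m → 1 ≤ D →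
    (∀ e, D * Nat.gcd (d1 e) (d2 e) ≤ d1 e + d2 e) →
    (∀ η : ℝ, 0 < η → ∀ᶠ N in atTop, ∀ (F : (Fin 3 → ℝ) → ℝ) (B : ℝ), 0 ≤ B → Lip F B → Symm F →
      |average (fun v => F (t v)) N - haarM m F| ≤ B * (6 * Real.pi ^ 2 / (D + 2) + η)) ∧
    (∀ᶠ N in atTop, ∀ (g : ℂ → ℝ) (B : ℝ), 0 ≤ B → (∀ z w, |g z - g w| ≤ B * ‖z - w‖) →
      |average (fun v => g (tr (t v))) N - haarM m fun u => g (tr u)| ≤ 60 * B / (D + 2)) ∧
    (∀ᶠ N in atTop, ∀ S : Set (Fin 3 → ℝ), MeasurableSet S → Invariant S →
      haarM m (S.indicator fun _ => 1) - 8 / √(D + 2) ≤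
        proportion {v | Metric.infDist (t v) S < 8 / √(D + 2)} N ∧
      proportion {v | t v ∈ S} N ≤
        haarM m ({u | Metric.infDist u S < 8 / √(D + 2)}.indicator fun _ => 1) + 8 / √(D + 2)) := by
  intro K _ _ t E d1 d2 m D h hD1 hD
  have hreg : ∀ a < D, Regular3 d1 d2 a := fun a ha => reg_of h.pos hD ha
  exact ⟨fun η hη => law h hD1 hreg hη, law_tr h hD1 hreg, law_set h hD1 hreg⟩

end Pool.Agent.Results.MP_4c4ce6_nt.UnitaryThree
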